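import Mathlib
import Pool.Agent.Lib.MP_76381c_al.Final

/-!
# A reflexive precompact group topology on the free abelian group of countable rank

Tkachenko's question in its own words: the countably infinite abelian group `ℤ^(ℕ)` (written
multiplicatively as `Multiplicative (ℕ →₀ ℤ)`, because Mathlib's `PontryaginDual` is written
for multiplicative groups) carries a precompact group topology which is reflexive.
-/

set_option autoImplicit false

open Topology Filter

namespace Pool.Agent.Results.MP_76381c_al.FreeAbelian

/-- The free abelian group of countably infinite rank, written multiplicatively. -/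
abbrev ZN : Type := Multiplicative (ℕ →₀ ℤ)

open Pool.Agent.Lib.MP_76381c_al in
/-- The algebraic isomorphism with the group of the construction. -/
noncomputable def iso : ZN ≃* GG :=
  AddEquiv.toMultiplicative
    (Finsupp.domCongr (nonempty_equiv_of_countable (α := ℕ) (β := S)).some)

section transfer

variable {A B : Type} [CommGroup A] [TopologicalSpace A] [CommGroup B] [TopologicalSpace B]

/-- The isomorphism between the duals given by an isomorphism of topological groups. -/
noncomputable def dualEquiv (e : A ≃ₜ* B) : PontryaginDual A ≃ₜ* PontryaginDual B where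
  toFun := PontryaginDual.map (e.symm : B →ₜ* A)
  invFun := PontryaginDual.map (e : A →ₜ* B)
  left_inv χ := by
    refine PontryaginDual.ext fun a => ?_
    rw [PontryaginDual.map_apply, PontryaginDual.map_apply]
    exact congrArg χ (e.symm_apply_apply a)
  right_inv χ := by
    refine PontryaginDual.ext fun a => ?_
    rw [PontryaginDual.map_apply, PontryaginDual.map_apply]
    exact congrArg χ (e.apply_symm_apply a)
  map_mul' χ ψ := map_mul _ χ ψ
  continuous_toFun := map_continuous _
  continuous_invFun := map_continuous _

lemma dualEquiv_apply (e : A ≃ₜ* B) (χ : PontryaginDual A) (b : B) :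
    dualEquiv e χ b = χ (e.symm b) := rfl

lemma dualEquiv_symm_apply (e : A ≃ₜ* B) (χ : PontryaginDual B) (a : A) :
    (dualEquiv e).symm χ a = χ (e a) := rfl

end transfer

open Pool.Agent.Lib.MP_76381c_al in
/-- The free abelian group of countably infinite rank carries a Hausdorff, totally bounded
group topology, which embeds it into a power of the circle, such that the evaluation map into
the bidual (compact-open topologies) is an isomorphism of topological groups. -/
theorem result :
    ∃ τ : TopologicalSpace (Multiplicative (ℕ →₀ ℤ)),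
      IsTopologicalGroup (Multiplicative (ℕ →₀ ℤ)) ∧
      T2Space (Multiplicative (ℕ →₀ ℤ)) ∧
      (∀ U ∈ 𝓝 (1 : Multiplicative (ℕ →₀ ℤ)), ∃ F : Finset (Multiplicative (ℕ →₀ ℤ)),
        ∀ g : Multiplicative (ℕ →₀ ℤ), ∃ f ∈ F, ∃ u ∈ U, g = f * u) ∧
      (∃ (I : Type) (j : Multiplicative (ℕ →₀ ℤ) →* (I → Circle)), IsEmbedding j) ∧
      (∃ α : Multiplicative (ℕ →₀ ℤ) ≃ₜ*
          PontryaginDual (PontryaginDual (Multiplicative (ℕ →₀ ℤ))),
        ∀ (g : Multiplicative (ℕ →₀ ℤ)) (χ : PontryaginDual (Multiplicative (ℕ →₀ ℤ))),
          α g χ = χ g) := by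
  refine ⟨TopologicalSpace.induced iso inferInstance, ?_⟩
  let τ : TopologicalSpace ZN := TopologicalSpace.induced iso inferInstance
  have hind : IsInducing (iso : ZN → GG) := ⟨rfl⟩
  have hhom : IsHomeomorph (iso : ZN → GG) :=
    isHomeomorph_iff_isEmbedding_surjective.2 ⟨⟨hind, iso.injective⟩, iso.surjective⟩
  have hgrp : IsTopologicalGroup ZN := topologicalGroup_induced iso
  have hT2 : T2Space ZN := (IsEmbedding.mk hind iso.injective).t2Space
  let e : ZN ≃ₜ* GG :=
    { iso with
      continuous_toFun := hhom.continuous
      continuous_invFun := by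
        rw [hind.continuous_iff]
        refine continuous_id.congr fun g => ?_
        exact (iso.apply_symm_apply g).symm }
  have he : ∀ g, e g = iso g := fun _ => rfl
  refine ⟨hgrp, hT2, ?_, ?_, ?_⟩
  · intro U hU
    rw [hind.nhds_eq_comap, mem_comap, map_one] at hU
    obtain ⟨V, hV, hVU⟩ := hU
    obtain ⟨F, hF⟩ := GG_precompact V hV
    classical
    refine ⟨F.image iso.symm, fun g => ?_⟩
    obtain ⟨f, hf, u, hu, hg⟩ := hF (iso g)
    refine ⟨iso.symm f, Finset.mem_image_of_mem _ hf, iso.symm u, hVU ?_, ?_⟩
    · simpa using hu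
    · rw [← map_mul, ← hg, MulEquiv.symm_apply_apply]
  · refine ⟨Y, tmap.comp (iso : ZN →* GG), ?_⟩
    exact (IsEmbedding.mk isInducing_tmap tmap_injective).comp (IsEmbedding.mk hind iso.injective)
  · let a : GG ≃ₜ* PontryaginDual (PontryaginDual GG) :=
      { alphaHomeo with
        map_mul' := fun g h => map_mul alphaHom g h }
    have ha : ∀ (g : GG) (χ : PontryaginDual GG), a g χ = χ g := fun _ _ => rfl
    refine ⟨(e.trans a).trans (dualEquiv (dualEquiv e)).symm, fun g χ => ?_⟩
    change (dualEquiv (dualEquiv e)).symm (a (e g)) χ = χ g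
    rw [dualEquiv_symm_apply, ha, dualEquiv_apply, ContinuousMulEquiv.symm_apply_apply]

end Pool.Agent.Results.MP_76381c_al.FreeAbelian
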